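import Pool.Agent.Q189.DM.DeMarr

/-!
# The partially bicyclic semigroup has the fixed point property `(F_{*s})`
-/

set_option autoImplicit false

open Set Topology Pool.Agent.Q189.DM

namespace Pool.Agent.Results.MP_722163_an.Bicyclic

/-- The three generators. -/
inductive Gen
  | a
  | b
  | c

/-- The defining relations `ab = e`, `ac = e`. -/
inductive Rel : FreeMonoid Gen → FreeMonoid Gen → Prop
  | ab : Rel (FreeMonoid.of Gen.a * FreeMonoid.of Gen.b) 1
  | ac : Rel (FreeMonoid.of Gen.a * FreeMonoid.of Gen.c) 1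

/-- The partially bicyclic semigroup. -/
abbrev S2 : Type := PresentedMonoid Rel

section Defs

variable {E : Type*} [NormedAddCommGroup E] [NormedSpace ℝ E]

/-- Weak* compactness of a subset of the dual. -/
def WeakStarCompact (C : Set (StrongDual ℝ E)) : Prop :=
  IsCompact ((StrongDual.toWeakDual : StrongDual ℝ E → WeakDual ℝ E) '' C)

/-- Weak* to weak* continuity on `C` of a map between subsets of the dual. -/
def WeakStarContinuousOn (f : StrongDual ℝ E → StrongDual ℝ E) (C : Set (StrongDual ℝ E)) : Prop :=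
  ContinuousOn (fun ω : WeakDual ℝ E => (StrongDual.toWeakDual (f (WeakDual.toStrongDual ω)) :
    WeakDual ℝ E)) ((StrongDual.toWeakDual : StrongDual ℝ E → WeakDual ℝ E) '' C)

/-- Norm nonexpansive representations of `S` on `C` by weak* continuous maps. -/
structure IsRep {S : Type} [Semigroup S] (C : Set (StrongDual ℝ E))
    (T : S → StrongDual ℝ E → StrongDual ℝ E) : Prop where
  maps : ∀ s, ∀ φ ∈ C, T s φ ∈ C
  mul : ∀ s t : S, ∀ φ ∈ C, T (s * t) φ = T s (T t φ)
  nonexpansive : ∀ s : S, ∀ φ ∈ C, ∀ ψ ∈ C, ‖T s φ - T s ψ‖ ≤ ‖φ - ψ‖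
  cont : ∀ s : S, WeakStarContinuousOn (T s) C

end Defs

/-- The fixed point property `(F_{*s})` of a discrete semigroup. -/
def FixedPointProperty.{u} (S : Type) [Semigroup S] : Prop :=
  ∀ (E : Type u) [NormedAddCommGroup E] [NormedSpace ℝ E] [CompleteSpace E]
    (C : Set (StrongDual ℝ E)) (T : S → StrongDual ℝ E → StrongDual ℝ E),
    C.Nonempty → Convex ℝ C → TopologicalSpace.IsSeparable C → WeakStarCompact C → IsRep C T →
    ∃ φ ∈ C, ∀ s : S, T s φ = φ

section Abstract

variable {V : Type*} [AddCommGroup V] [Module ℝ V] [TopologicalSpace V] [T2Space V]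

theorem word_ind (P : S2 → Prop) (h1 : P 1)
    (hg : ∀ (t : S2) (g : Gen), P t → P (t * PresentedMonoid.of Rel g)) (s : S2) : P s := by
  induction s using PresentedMonoid.inductionOn with
  | _ w =>
    induction w using List.reverseRecOn with
    | nil => exact h1
    | append_singleton l g ih => exact hg _ g ih

theorem exists_K (p : Seminorm ℝ V) (hcl : ∀ k r, IsClosed {c | p (c - k) ≤ r})
    (C : Set V) (hC : IsCompact C) (A : Set V) (hA : A.Countable)
    (hdense : ∀ x ∈ C, ∀ ε > 0, ∃ y ∈ A, p (x - y) ≤ ε)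
    (hsep : ∀ x, p x = 0 → x = 0)
    (T : S2 → V → V) (hrep : ∀ s t, ∀ x ∈ C, T (s * t) x = T s (T t x))
    (hexp : ∀ s, ∀ x ∈ C, ∀ y ∈ C, p (T s x - T s y) ≤ p (x - y))
    (hcont : ∀ s, ContinuousOn (T s) C)
    (D : Set V) (hDC : D ⊆ C) (hDcl : IsClosed D) (hDne : D.Nonempty)
    (hDT : ∀ s, MapsTo (T s) D D) :
    ∃ K ⊆ D, K.Nonempty ∧ (∀ s, T s '' K = K) ∧
      ∀ ε > 0, ∃ F : Finset V, ↑F ⊆ K ∧ ∀ k ∈ K, ∃ f ∈ F, p (k - f) ≤ ε := by
  classical
  obtain ⟨K, hKD, hKcl, hKne, hKT, hKmin⟩ := exists_min D (hC.of_isClosed_subset hDcl hDC) hDne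
    (fun D => ∀ s, MapsTo (T s) D D) (by
      intro c _ hc s x hx t ht
      exact hc t ht s (hx t ht)) hDT
  have hKC : K ⊆ C := hKD.trans hDC
  have hKc : IsCompact K := hC.of_isClosed_subset hKcl hKC
  have himg : ∀ s, IsClosed (T s '' K) := fun s =>
    (hKc.image_of_continuousOn ((hcont s).mono hKC)).isClosed
  -- the identity acts as the identity
  have h1 : T 1 '' K = K := by
    refine hKmin _ (himg 1) (hKne.image _) ?_ (image_subset_iff.2 (hKT 1))
    rintro s _ ⟨x, hx, rfl⟩
    refine ⟨T s x, hKT s hx, ?_⟩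
    rw [← hrep 1 s x (hKC hx), ← hrep s 1 x (hKC hx), one_mul, mul_one]
  have hid : ∀ x ∈ K, T 1 x = x := by
    intro x hx
    rw [← h1] at hx
    obtain ⟨y, hy, rfl⟩ := hx
    rw [← hrep 1 1 y (hKC hy), one_mul]
  set a : S2 := PresentedMonoid.of Rel Gen.a with ha
  set b : S2 := PresentedMonoid.of Rel Gen.b with hb
  set c : S2 := PresentedMonoid.of Rel Gen.c with hc
  have hab : a * b = 1 := PresentedMonoid.mk_eq_mk_of_rel Rel.ab
  have hac : a * c = 1 := PresentedMonoid.mk_eq_mk_of_rel Rel.ac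
  have hTab : ∀ x ∈ K, T a (T b x) = x := fun x hx => by rw [← hrep a b x (hKC hx), hab, hid x hx]
  have hTac : ∀ x ∈ K, T a (T c x) = x := fun x hx => by rw [← hrep a c x (hKC hx), hac, hid x hx]
  have haK : T a '' K = K :=
    Subset.antisymm (image_subset_iff.2 (hKT a)) fun x hx => ⟨T b x, hKT b hx, hTab x hx⟩
  have hisob : ∀ x ∈ K, ∀ y ∈ K, p (x - y) ≤ p (T b x - T b y) := fun x hx y hy => by
    have := hexp a (T b x) (hKC (hKT b hx)) (T b y) (hKC (hKT b hy))
    rwa [hTab x hx, hTab y hy] at this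
  have hisoc : ∀ x ∈ K, ∀ y ∈ K, p (x - y) ≤ p (T c x - T c y) := fun x hx y hy => by
    have := hexp a (T c x) (hKC (hKT c hx)) (T c y) (hKC (hKT c hy))
    rwa [hTac x hx, hTac y hy] at this
  have haiter : ∀ n, MapsTo (T a)^[n] K K := fun n => (hKT a).iterate n
  have haiterexp : ∀ n, ∀ x ∈ K, ∀ y ∈ K, p ((T a)^[n] x - (T a)^[n] y) ≤ p (x - y) := by
    intro n
    induction n with
    | zero => intro x _ y _; exact le_rfl
    | succ n ih =>
      intro x hx y hy
      rw [Function.iterate_succ_apply', Function.iterate_succ_apply']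
      exact (hexp a _ (hKC (haiter n hx)) _ (hKC (haiter n hy))).trans (ih x hx y hy)
  -- every element is bounded below by a power of `a`
  have hlow : ∀ s : S2, ∃ n : ℕ, ∀ x ∈ K, ∀ y ∈ K,
      p ((T a)^[n] x - (T a)^[n] y) ≤ p (T s x - T s y) := by
    intro s
    induction s using word_ind with
    | h1 => exact ⟨0, fun x hx y hy => by rw [hid x hx, hid y hy]; exact le_rfl⟩
    | hg t g ih =>
      obtain ⟨n, hn⟩ := ih
      cases g with
      | a =>
        refine ⟨n + 1, fun x hx y hy => ?_⟩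
        rw [Function.iterate_succ_apply, Function.iterate_succ_apply, hrep _ _ x (hKC hx),
          hrep _ _ y (hKC hy)]
        exact hn _ (hKT a hx) _ (hKT a hy)
      | b =>
        refine ⟨n - 1, fun x hx y hy => ?_⟩
        rw [hrep _ _ x (hKC hx), hrep _ _ y (hKC hy)]
        have h2 := hn _ (hKT b hx) _ (hKT b hy)
        cases n with
        | zero => exact (hisob x hx y hy).trans h2
        | succ n =>
          rw [Function.iterate_succ_apply, Function.iterate_succ_apply, hTab x hx, hTab y hy] at h2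
          exact h2
      | c =>
        refine ⟨n - 1, fun x hx y hy => ?_⟩
        rw [hrep _ _ x (hKC hx), hrep _ _ y (hKC hy)]
        have h2 := hn _ (hKT c hx) _ (hKT c hy)
        cases n with
        | zero => exact (hisoc x hx y hy).trans h2
        | succ n =>
          rw [Function.iterate_succ_apply, Function.iterate_succ_apply, hTac x hx, hTac y hy] at h2
          exact h2
  -- total boundedness
  have htb : ∀ ε > 0, ∃ F : Finset V, ↑F ⊆ K ∧ ∀ k ∈ K, ∃ f ∈ F, p (k - f) ≤ ε := by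
    intro ε hε
    -- a small open set
    obtain ⟨U, hU, ⟨u, huU, huK⟩, hUd⟩ : ∃ U : Set V, IsOpen U ∧ (U ∩ K).Nonempty ∧
        ∀ x ∈ U ∩ K, ∀ y ∈ U ∩ K, p (x - y) ≤ ε := by
      have hcK : CompactSpace K := isCompact_iff_compactSpace.1 hKc
      have hneK : Nonempty K := hKne.to_subtype
      have : Countable A := hA.to_subtype
      obtain ⟨i, hi⟩ := nonempty_interior_of_iUnion_of_closed
        (f := fun y : A => {k : K | p ((k : V) - y) ≤ ε / 2})
        (fun y => (hcl y (ε / 2)).preimage continuous_subtype_val) (by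
          rw [eq_univ_iff_forall]
          intro k
          obtain ⟨y, hy, h⟩ := hdense k (hKC k.2) (ε / 2) (by positivity)
          exact mem_iUnion.2 ⟨⟨y, hy⟩, h⟩)
      obtain ⟨k, hk⟩ := hi
      obtain ⟨W, hW, hWo, hkW⟩ := mem_interior.1 hk
      obtain ⟨U, hU, rfl⟩ := isOpen_induced_iff.1 hWo
      refine ⟨U, hU, ⟨k, hkW, k.2⟩, fun x hx y hy => ?_⟩
      have h2 : p (x - i) ≤ ε / 2 := hW (show (⟨x, hx.2⟩ : K) ∈ Subtype.val ⁻¹' U from hx.1)
      have h3 : p (y - i) ≤ ε / 2 := hW (show (⟨y, hy.2⟩ : K) ∈ Subtype.val ⁻¹' U from hy.1)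
      have e : x - y = (x - i) - (y - i) := by abel
      rw [e]
      refine (map_sub_le_add p _ _).trans ?_
      linarith
    -- every orbit visits it
    have hvis : ∀ k ∈ K, ∃ s, T s k ∈ U := by
      intro k hk
      have hsub : closure (range fun s => T s k) ⊆ K := by
        refine closure_minimal ?_ hKcl
        rintro _ ⟨s, rfl⟩
        exact hKT s hk
      have h2 : closure (range fun s => T s k) = K := by
        refine hKmin _ isClosed_closure ⟨_, subset_closure ⟨1, rfl⟩⟩ ?_ hsub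
        intro s
        have h3 : MapsTo (T s) (range fun s => T s k) (range fun s => T s k) := by
          rintro _ ⟨t, rfl⟩
          exact ⟨s * t, hrep s t k (hKC hk)⟩
        exact h3.closure_of_continuousOn ((hcont s).mono (hsub.trans hKC))
      obtain ⟨_, h3, s, rfl⟩ := mem_closure_iff.1 (h2 ▸ huK) U hU huU
      exact ⟨s, h3⟩
    choose! σ hσ using hvis
    -- relatively open preimages
    have hopen : ∀ s : S2, ∃ W : Set V, IsOpen W ∧ W ∩ K = T s ⁻¹' U ∩ K := by
      intro s
      obtain ⟨W, hW, hWK⟩ := ((continuousOn_iff'.1 ((hcont s).mono hKC)) U hU)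
      exact ⟨W, hW, hWK.symm⟩
    choose W hW hWK using hopen
    obtain ⟨t, ht⟩ := hKc.elim_finite_subcover W hW (fun k hk => mem_iUnion.2 ⟨σ k,
      (show k ∈ W (σ k) ∩ K by rw [hWK]; exact ⟨hσ k hk, hk⟩).1⟩)
    choose ν hν using hlow
    set N := t.sup ν with hN
    let g : S2 → V := fun s => if h : ∃ k ∈ K, T s k ∈ U then (T a)^[N] h.choose else u
    refine ⟨t.image g, ?_, ?_⟩
    · intro y hy
      obtain ⟨s, _, rfl⟩ := Finset.mem_image.1 (Finset.mem_coe.1 hy)
      show (if h : ∃ k ∈ K, T s k ∈ U then (T a)^[N] h.choose else u) ∈ K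
      split_ifs with h
      · exact haiter N h.choose_spec.1
      · exact huK
    · intro k hk
      obtain ⟨k', hk', rfl⟩ : ∃ k' ∈ K, (T a)^[N] k' = k := by
        have : ∀ n, (T a)^[n] '' K = K := by
          intro n
          induction n with
          | zero => simp
          | succ n ih => rw [Function.iterate_succ', image_comp, ih, haK]
        rw [← this N] at hk
        exact hk
      obtain ⟨s, hs⟩ := mem_iUnion.1 (ht hk')
      obtain ⟨hst, hsW⟩ := mem_iUnion.1 hs
      have h2 : T s k' ∈ U := (show k' ∈ T s ⁻¹' U ∩ K by rw [← hWK]; exact ⟨hsW, hk'⟩).1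
      have hex : ∃ k ∈ K, T s k ∈ U := ⟨k', hk', h2⟩
      refine ⟨g s, Finset.mem_image_of_mem g hst, ?_⟩
      have hg : g s = (T a)^[N] hex.choose := dif_pos hex
      rw [hg]
      obtain ⟨h3, h4⟩ := hex.choose_spec
      have h5 : ν s ≤ N := Finset.le_sup (f := ν) hst
      obtain ⟨m, hm⟩ := Nat.exists_eq_add_of_le h5
      have h6 : ∀ z, (T a)^[N] z = (T a)^[m] ((T a)^[ν s] z) := by
        intro z
        rw [hm, add_comm, Function.iterate_add_apply]
      rw [h6, h6]
      refine (haiterexp m _ (haiter _ hk') _ (haiter _ h3)).trans ?_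
      refine (hν s _ hk' _ h3).trans ?_
      exact hUd _ ⟨h2, hKT s hk'⟩ _ ⟨h4, hKT s h3⟩
  -- surjectivity of isometries
  have hsurj : ∀ s : S2, (∀ x ∈ K, ∀ y ∈ K, p (x - y) ≤ p (T s x - T s y)) → T s '' K = K := by
    intro s hs
    refine Subset.antisymm (image_subset_iff.2 (hKT s)) fun y hy => ?_
    by_contra hcon
    have hiter : ∀ n, MapsTo (T s)^[n] K K := fun n => (hKT s).iterate n
    have hiterlow : ∀ n, ∀ x ∈ K, ∀ z ∈ K, p (x - z) ≤ p ((T s)^[n] x - (T s)^[n] z) := by
      intro n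
      induction n with
      | zero => intro x _ z _; exact le_rfl
      | succ n ih =>
        intro x hx z hz
        rw [Function.iterate_succ_apply', Function.iterate_succ_apply']
        exact (ih x hx z hz).trans (hs _ (hiter n hx) _ (hiter n hz))
    obtain ⟨δ, hδ, hfar⟩ : ∃ δ > 0, ∀ z ∈ T s '' K, δ ≤ p (z - y) := by
      by_contra hcon2
      push Not at hcon2
      have hne : (⋂ n : ℕ, (T s '' K ∩ {z | p (z - y) ≤ 1 / ((n : ℝ) + 1)})).Nonempty := by
        refine IsCompact.nonempty_iInter_of_directed_nonempty_isCompact_isClosed _ ?_ ?_ ?_ ?_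
        · intro m n
          refine ⟨max m n, ?_, ?_⟩
          · intro z hz
            refine ⟨hz.1, le_trans (show p (z - y) ≤ _ from hz.2) ?_⟩
            have : (m : ℝ) ≤ (max m n : ℕ) := by exact_mod_cast le_max_left _ _
            gcongr
          · intro z hz
            refine ⟨hz.1, le_trans (show p (z - y) ≤ _ from hz.2) ?_⟩
            have : (n : ℝ) ≤ (max m n : ℕ) := by exact_mod_cast le_max_right _ _
            gcongr
        · intro n
          obtain ⟨z, hz, hzl⟩ := hcon2 (1 / ((n : ℝ) + 1)) (by positivity)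
          exact ⟨z, hz, hzl.le⟩
        · intro n
          exact ((hKc.image_of_continuousOn ((hcont s).mono hKC)).inter_right (hcl y _))
        · intro n
          exact (himg s).inter (hcl y _)
      obtain ⟨z, hz⟩ := hne
      have h2 : p (z - y) ≤ 0 := ge_of_tendsto' tendsto_one_div_add_atTop_nhds_zero_nat
        fun n => (mem_iInter.1 hz n).2
      have h3 : z - y = 0 := hsep _ (le_antisymm h2 (apply_nonneg _ _))
      have h4 : z = y := sub_eq_zero.1 h3
      exact hcon (h4 ▸ (mem_iInter.1 hz 0).1)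
    obtain ⟨F, hFK, hF⟩ := htb (δ / 3) (by positivity)
    choose! φ hφ hφ2 using fun n : ℕ => hF _ (hiter n hy)
    have hinj : Function.Injective φ := by
      intro m n hmn
      by_contra hne
      wlog hlt : m < n generalizing m n
      · exact this hmn.symm (Ne.symm hne) (by omega)
      obtain ⟨r, rfl⟩ := Nat.exists_eq_add_of_lt hlt
      have h2 : p ((T s)^[m] ((T s)^[r + 1] y) - (T s)^[m] y) ≤ 2 * (δ / 3) := by
        have e : (T s)^[m] ((T s)^[r + 1] y) = (T s)^[m + r + 1] y := by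
          rw [← Function.iterate_add_apply]; rfl
        rw [e]
        have e2 : (T s)^[m + r + 1] y - (T s)^[m] y =
            ((T s)^[m + r + 1] y - φ (m + r + 1)) - ((T s)^[m] y - φ m) := by
          rw [hmn]; abel
        rw [e2]
        refine (map_sub_le_add p _ _).trans ?_
        have := hφ2 m
        have := hφ2 (m + r + 1)
        linarith
      have h3 := hiterlow m _ (hiter (r + 1) hy) _ hy
      have h4 : δ ≤ p ((T s)^[r + 1] y - y) := by
        apply hfar
        rw [Function.iterate_succ_apply']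
        exact ⟨_, hiter r hy, rfl⟩
      linarith
    have hfin : Finite ℕ := Finite.of_injective (fun n => (⟨φ n, hφ n⟩ : F)) (fun m n h =>
      hinj (congrArg Subtype.val h))
    exact not_finite ℕ
  refine ⟨K, hKD, hKne, fun s => ?_, htb⟩
  induction s using word_ind with
  | h1 => exact h1
  | hg t g ih =>
    have h2 : ∀ r, T r '' K = K → T (t * r) '' K = K := by
      intro r hr
      have : T (t * r) '' K = T t '' (T r '' K) := by
        rw [← image_comp]
        exact image_congr fun x hx => hrep t r x (hKC hx)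
      rw [this, hr, ih]
    cases g with
    | a => exact h2 a haK
    | b => exact h2 b (hsurj b hisob)
    | c => exact h2 c (hsurj c hisoc)

end Abstract

/-- The norm on the weak dual. -/
noncomputable def dn (E : Type*) [NormedAddCommGroup E] [NormedSpace ℝ E] :
    Seminorm ℝ (WeakDual ℝ E) :=
  (normSeminorm ℝ (StrongDual ℝ E)).comp (WeakDual.toStrongDual (𝕜 := ℝ) (E := E)).toLinearMap

/-- **The partially bicyclic semigroup has the fixed point property.** -/
theorem result.{u} : FixedPointProperty.{u} S2 := by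
  intro E _ _ _ C T hne hconv hsep hcomp ⟨hmap, hrep, hexp, hcont⟩
  let Φ := StrongDual.toWeakDual (𝕜 := ℝ) (E := E)
  let p : Unit → Seminorm ℝ (WeakDual ℝ E) := fun _ => dn E
  have hp : ∀ x : WeakDual ℝ E, dn E x = ‖Φ.symm x‖ := fun x => rfl
  have hpd : ∀ x y : StrongDual ℝ E, dn E (Φ x - Φ y) = ‖x - y‖ := by
    intro x y
    rw [← map_sub, hp, LinearEquiv.symm_apply_apply]
  have hcl : ∀ k r, IsClosed {c : WeakDual ℝ E | dn E (c - k) ≤ r} := by
    intro k r
    have := WeakDual.isClosed_closedBall (𝕜 := ℝ) (E := E) (Φ.symm k) r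
    convert this using 1
    ext c
    simp only [mem_ofPred_eq, mem_preimage, Metric.mem_closedBall, dist_eq_norm]
    rw [hp, map_sub]
    rfl
  let T' : S2 → WeakDual ℝ E → WeakDual ℝ E := fun s ω => Φ (T s (Φ.symm ω))
  have hT' : ∀ s, MapsTo (T' s) (Φ '' C) (Φ '' C) := by
    rintro s _ ⟨x, hx, rfl⟩
    exact ⟨T s x, hmap s x hx, by simp [T']⟩
  have hrep' : ∀ s t, ∀ x ∈ Φ '' C, T' (s * t) x = T' s (T' t x) := by
    rintro s t _ ⟨x, hx, rfl⟩
    show Φ (T (s * t) (Φ.symm (Φ x))) = Φ (T s (Φ.symm (Φ (T t (Φ.symm (Φ x))))))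
    simp only [LinearEquiv.symm_apply_apply]
    rw [hrep s t x hx]
  have hexp' : ∀ s, ∀ x ∈ Φ '' C, ∀ y ∈ Φ '' C, dn E (T' s x - T' s y) ≤ dn E (x - y) := by
    rintro s _ ⟨x, hx, rfl⟩ _ ⟨y, hy, rfl⟩
    show dn E (Φ (T s (Φ.symm (Φ x))) - Φ (T s (Φ.symm (Φ y)))) ≤ _
    rw [LinearEquiv.symm_apply_apply, LinearEquiv.symm_apply_apply, hpd, hpd]
    exact hexp s x hx y hy
  have hsep' : ∀ x : WeakDual ℝ E, dn E x = 0 → x = 0 := by
    intro x hx
    rw [hp, norm_eq_zero] at hx
    exact (LinearEquiv.map_eq_zero_iff _).1 hx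
  obtain ⟨A, hA, hCA⟩ := hsep
  have hdense : ∀ x ∈ Φ '' C, ∀ ε > 0, ∃ y ∈ Φ '' A, dn E (x - y) ≤ ε := by
    rintro _ ⟨x, hx, rfl⟩ ε hε
    obtain ⟨y, hy, hxy⟩ := Metric.mem_closure_iff.1 (hCA hx) ε hε
    refine ⟨Φ y, ⟨y, hy, rfl⟩, ?_⟩
    rw [hpd, ← dist_eq_norm]
    exact hxy.le
  obtain ⟨x, ⟨φ, hφ, rfl⟩, hfix⟩ := fixed_of p (fun _ k r => hcl k r)
    (fun x hx => hsep' x (hx ())) (Φ '' C) hcomp (hconv.linear_image Φ.toLinearMap)
    (hne.image _) T' hT' (fun s _ x hx y hy => hexp' s x hx y hy) (by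
      intro D hDC hDcl _ hDne hDT
      obtain ⟨K, h1, h2, h3, h4⟩ := exists_K (dn E) hcl (Φ '' C) hcomp (Φ '' A) (hA.image _) hdense
        hsep' T' hrep' hexp' hcont D hDC hDcl hDne hDT
      exact ⟨K, h1, h2, h3, fun _ => h4⟩)
  refine ⟨φ, hφ, fun s => ?_⟩
  have h1 : Φ (T s (Φ.symm (Φ φ))) = Φ φ := hfix s
  rw [LinearEquiv.symm_apply_apply] at h1
  exact Φ.injective h1

end Pool.Agent.Results.MP_722163_an.Bicyclic
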